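import Mathlib
import Pool.Agent.Helper8.DilationLib
import Pool.Agent.Helper8.Classify.Joint

/-!
# The conditions are necessary: logarithmic averages along a sequence (module CJ-3)
-/

namespace Pool.Agent.Helper8.Classify

open Finset Filter Topology Pool.Agent.Helper8.Dilation

/-- logarithmic sums -/
noncomputable def nlS (a : ℕ → ℝ) (N : ℕ) : ℝ := ∑ n ∈ Ioc 0 N, a n / n

/-- `a` has logarithmic average `A` along `N` -/
def NLA (N : ℕ → ℕ) (a : ℕ → ℝ) (A : ℝ) : Prop :=
  Tendsto (fun k : ℕ => nlS a (N k) / Real.log (N k)) atTop (𝓝 A)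

lemma nl_abs_prod (f : ℕ → ℝ) (hf : ∀ n, f n = 1 ∨ f n = -1) (S : Finset ℕ) (g : ℕ → ℕ) :
    |∏ s ∈ S, f (g s)| = 1 := by
  rw [Finset.abs_prod]
  refine Finset.prod_eq_one fun s _ => ?_
  rcases hf (g s) with h | h <;> rw [h] <;> simp

/-- summation by parts -/
lemma nl_parts (x : ℕ → ℝ) (N : ℕ) : ∑ n ∈ Ioc 0 N, x n / n =
    (∑ n ∈ Ioc 0 N, x n) / (N + 1) +
      ∑ n ∈ Ioc 0 N, (∑ m ∈ Ioc 0 n, x m) / ((n : ℝ) * (n + 1)) := by
  induction N with
  | zero => simp
  | succ N ih =>
    rw [Finset.sum_Ioc_succ_top (by omega), Finset.sum_Ioc_succ_top (by omega),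
      Finset.sum_Ioc_succ_top (by omega), ih, Finset.sum_Ioc_succ_top (by omega)]
    generalize (∑ n ∈ Ioc 0 N, (∑ m ∈ Ioc 0 n, x m) / ((n : ℝ) * (n + 1))) = T
    generalize (∑ n ∈ Ioc 0 N, x n) = X
    push_cast
    have h1 : (N : ℝ) + 1 ≠ 0 := by positivity
    have h2 : (N : ℝ) + 1 + 1 ≠ 0 := by positivity
    field_simp
    ring

lemma nl_harm (N : ℕ) : ∑ n ∈ Ioc 0 N, (1 : ℝ) / n = (harmonic N : ℝ) := by
  rw [harmonic_eq_sum_Icc]
  push_cast
  refine Finset.sum_congr ?_ fun n _ => by rw [one_div]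
  ext n; simp [Nat.lt_iff_add_one_le]

lemma nl_harm_le (N : ℕ) : ∑ n ∈ Ioc 0 N, (1 : ℝ) / n ≤ 1 + Real.log N := by
  rw [nl_harm]
  exact harmonic_le_one_add_log N

lemma nl_le_harm (N : ℕ) : Real.log N ≤ ∑ n ∈ Ioc 0 N, (1 : ℝ) / n := by
  rcases Nat.eq_zero_or_pos N with h | h
  · subst h; simp
  rw [nl_harm]
  refine le_trans ?_ (log_add_one_le_harmonic N)
  apply Real.log_le_log
  · exact_mod_cast h
  · push_cast; linarith

/-- a sequence with averages eventually at most `ε` for all `ε` has logarithmic averages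
eventually at most `ε` for all `ε` -/
lemma nl_small (x : ℕ → ℝ)
    (h : ∀ ε : ℝ, 0 < ε → ∀ᶠ N : ℕ in atTop, ∑ n ∈ Ioc 0 N, x n ≤ ε * N) :
    ∀ ε : ℝ, 0 < ε → ∀ᶠ N : ℕ in atTop, nlS x N ≤ ε * Real.log N := by
  intro ε hε
  obtain ⟨N0, hN0⟩ := eventually_atTop.mp (h (ε / 2) (by positivity))
  set C : ℝ := ∑ n ∈ Ioc 0 N0, (∑ m ∈ Ioc 0 n, x m) / ((n : ℝ) * (n + 1)) with hC
  have hlog : Tendsto (fun N : ℕ => Real.log N) atTop atTop :=
    Real.tendsto_log_atTop.comp tendsto_natCast_atTop_atTop
  have hev := hlog.eventually_ge_atTop ((C + ε) / (ε / 2))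
  filter_upwards [hev, eventually_ge_atTop N0] with N h1 h2
  unfold nlS
  rw [nl_parts]
  have h3 : (∑ n ∈ Ioc 0 N, x n) / ((N : ℝ) + 1) ≤ ε / 2 := by
    rw [div_le_iff₀ (by positivity)]
    have := hN0 N h2
    nlinarith
  have h4 : ∑ n ∈ Ioc 0 N, (∑ m ∈ Ioc 0 n, x m) / ((n : ℝ) * (n + 1)) ≤
      C + ∑ n ∈ Ioc 0 N, (ε / 2) * ((1 : ℝ) / n) := by
    have h5 : ∀ n ∈ Ioc 0 N, (∑ m ∈ Ioc 0 n, x m) / ((n : ℝ) * (n + 1)) ≤
        (if n ∈ Ioc 0 N0 then (∑ m ∈ Ioc 0 n, x m) / ((n : ℝ) * (n + 1)) else 0) +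
          (ε / 2) * ((1 : ℝ) / n) := by
      intro n hn
      have hn0 : (0 : ℝ) < n := by
        have := (Finset.mem_Ioc.1 hn).1
        exact_mod_cast this
      split_ifs with hm
      · have : 0 ≤ (ε / 2) * ((1 : ℝ) / n) := by positivity
        linarith
      · have hge : N0 ≤ n := by
          by_contra hcon
          apply hm
          rw [Finset.mem_Ioc] at hn ⊢
          omega
        have h6 := hN0 n hge
        rw [zero_add, div_le_iff₀ (by positivity)]
        have h7 : (ε / 2) * ((1 : ℝ) / n) * ((n : ℝ) * (n + 1)) = (ε / 2) * (n + 1) := by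
          field_simp
        rw [h7]
        nlinarith
    refine (Finset.sum_le_sum h5).trans ?_
    rw [Finset.sum_add_distrib]
    refine add_le_add_left (le_of_eq ?_) _
    rw [← Finset.sum_filter, hC]
    refine Finset.sum_congr ?_ fun _ _ => rfl
    ext n
    simp only [Finset.mem_filter, Finset.mem_Ioc]
    omega
  rw [← Finset.mul_sum] at h4
  have h5 := nl_harm_le N
  rw [div_le_iff₀ (by positivity)] at h1
  have h6 : (ε / 2) * ∑ n ∈ Ioc 0 N, (1 : ℝ) / n ≤ (ε / 2) * (1 + Real.log N) :=
    mul_le_mul_of_nonneg_left h5 (by positivity)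
  nlinarith

section

variable {N : ℕ → ℕ} (hN : Tendsto N atTop atTop)

include hN in
lemma nl_log : Tendsto (fun k : ℕ => Real.log (N k)) atTop atTop :=
  Real.tendsto_log_atTop.comp (tendsto_natCast_atTop_atTop.comp hN)

include hN in
/-- close sequences have the same logarithmic averages -/
lemma NLA.unique {a b : ℕ → ℝ} {A B : ℝ} (ha : NLA N a A) (hb : NLA N b B)
    (h : ∀ ε : ℝ, 0 < ε → ∀ᶠ M : ℕ in atTop, |nlS a M - nlS b M| ≤ ε * Real.log M) : A = B := by
  have h0 : Tendsto (fun k : ℕ => nlS a (N k) / Real.log (N k) - nlS b (N k) / Real.log (N k))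
      atTop (𝓝 (A - B)) := ha.sub hb
  have h1 : Tendsto (fun k : ℕ => nlS a (N k) / Real.log (N k) - nlS b (N k) / Real.log (N k))
      atTop (𝓝 0) := by
    rw [Metric.tendsto_atTop']
    intro ε hε
    have h2 := hN.eventually (h (ε / 2) (by positivity))
    have h3 := (nl_log hN).eventually_gt_atTop 0
    obtain ⟨k0, hk0⟩ := eventually_atTop.mp (h2.and h3)
    refine ⟨k0, fun k hk => ?_⟩
    obtain ⟨h4, h5⟩ := hk0 k hk.le
    rw [Real.dist_eq, sub_zero, ← sub_div, abs_div, abs_of_pos h5, div_lt_iff₀ h5]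
    nlinarith
  have := tendsto_nhds_unique h0 h1
  linarith

include hN in
lemma NLA.unique' {a b : ℕ → ℝ} {A B : ℝ} (ha : NLA N a A) (hb : NLA N b B) (C : ℝ)
    (h : ∀ M : ℕ, |nlS a M - nlS b M| ≤ C) : A = B := by
  refine NLA.unique hN ha hb fun ε hε => ?_
  have hlog : Tendsto (fun N : ℕ => Real.log N) atTop atTop :=
    Real.tendsto_log_atTop.comp tendsto_natCast_atTop_atTop
  filter_upwards [hlog.eventually_ge_atTop (C / ε)] with M hM
  refine (h M).trans ?_
  rw [div_le_iff₀ hε] at hM
  linarith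

end

lemma nlS_shift (a : ℕ → ℝ) (ha : ∀ n, |a n| ≤ 1) (N : ℕ) :
    |nlS (fun n => a (n + 1)) N - nlS a N| ≤ 4 := by
  have h1 : nlS (fun n => a (n + 1)) N - nlS a N = a (N + 1) / (N + 1) - a 1 +
      ∑ n ∈ Ioc 0 N, a (n + 1) / ((n : ℝ) * (n + 1)) := by
    unfold nlS
    induction N with
    | zero => simp
    | succ N ih =>
      rw [Finset.sum_Ioc_succ_top (by omega), Finset.sum_Ioc_succ_top (by omega),
        Finset.sum_Ioc_succ_top (by omega)]
      have h2 : (N : ℝ) + 1 ≠ 0 := by positivity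
      have h3 : (N : ℝ) + 1 + 1 ≠ 0 := by positivity
      have e : a (N + 1 + 1) / ((N : ℝ) + 1) = a (N + 1 + 1) / ((N : ℝ) + 1 + 1) +
          a (N + 1 + 1) / (((N : ℝ) + 1) * ((N : ℝ) + 1 + 1)) := by
        field_simp
      push_cast at ih ⊢
      rw [e]
      linarith
  rw [h1]
  have h2 : |∑ n ∈ Ioc 0 N, a (n + 1) / ((n : ℝ) * (n + 1))| ≤ 1 := by
    refine (Finset.abs_sum_le_sum_abs _ _).trans ?_
    have h3 : ∀ n ∈ Ioc 0 N, |a (n + 1) / ((n : ℝ) * (n + 1))| ≤ 1 / ((n : ℝ) * (n + 1)) := by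
      intro n hn
      have hn0 : (0 : ℝ) < n := by
        have := (Finset.mem_Ioc.1 hn).1
        exact_mod_cast this
      rw [abs_div, abs_of_pos (by positivity : (0 : ℝ) < (n : ℝ) * (n + 1))]
      exact div_le_div_of_nonneg_right (ha _) (by positivity)
    refine (Finset.sum_le_sum h3).trans ?_
    have h4 : ∀ N : ℕ, ∑ n ∈ Ioc 0 N, 1 / ((n : ℝ) * (n + 1)) = 1 - 1 / (N + 1) := by
      intro N
      induction N with
      | zero => simp
      | succ N ih =>
        rw [Finset.sum_Ioc_succ_top (by omega), ih]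
        have h2 : (N : ℝ) + 1 ≠ 0 := by positivity
        have h3 : (N : ℝ) + 1 + 1 ≠ 0 := by positivity
        push_cast
        field_simp
        ring
    rw [h4]
    have : (0 : ℝ) ≤ 1 / ((N : ℝ) + 1) := by positivity
    linarith
  have h3 : |a (N + 1) / ((N : ℝ) + 1)| ≤ 1 := by
    rw [abs_div, abs_of_pos (by positivity : (0 : ℝ) < (N : ℝ) + 1), div_le_one (by positivity)]
    have := ha (N + 1)
    have : (0 : ℝ) ≤ N := Nat.cast_nonneg N
    linarith
  have h4 := ha 1
  rw [abs_le] at *
  constructor <;> linarith [h2.1, h2.2, h3.1, h3.2, h4.1, h4.2]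

/-- dilation of logarithmic sums -/
lemma nlS_dilate (a : ℕ → ℝ) (ha : ∀ n, |a n| ≤ 1) (p : ℕ) (hp : 0 < p)
    (h0 : ∀ n, ¬ p ∣ n → a n = 0) (N : ℕ) :
    |nlS a N - (1 / p) * nlS (fun m => a (p * m)) N| ≤ 1 := by
  have hp0 : (0 : ℝ) < p := by exact_mod_cast hp
  have h1 : nlS a N = (1 / p) * nlS (fun m => a (p * m)) (N / p) := by
    unfold nlS
    rw [Finset.mul_sum]
    have hfil : (Ioc 0 N).filter (fun n => p ∣ n) = (Ioc 0 (N / p)).image (fun m => p * m) := by
      ext n
      simp only [Finset.mem_filter, Finset.mem_Ioc, Finset.mem_image]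
      constructor
      · rintro ⟨⟨h3, h4⟩, ⟨m, rfl⟩⟩
        refine ⟨m, ⟨Nat.pos_of_mul_pos_left h3, ?_⟩, rfl⟩
        rw [Nat.le_div_iff_mul_le hp]
        rw [mul_comm]; exact h4
      · rintro ⟨m, ⟨h3, h4⟩, rfl⟩
        rw [Nat.le_div_iff_mul_le hp] at h4
        exact ⟨⟨Nat.mul_pos hp h3, by rw [mul_comm]; exact h4⟩, Dvd.intro m rfl⟩
    have h2 : ∑ n ∈ Ioc 0 N, a n / n = ∑ n ∈ (Ioc 0 N).filter (fun n => p ∣ n), a n / n := by
      rw [Finset.sum_filter]
      refine Finset.sum_congr rfl fun n _ => ?_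
      split_ifs with h
      · rfl
      · rw [h0 n h, zero_div]
    rw [h2, hfil, Finset.sum_image (by
      intro x _ y _ hxy; exact Nat.eq_of_mul_eq_mul_left hp hxy)]
    refine Finset.sum_congr rfl fun m hm => ?_
    have hm0 : (0 : ℝ) < m := by
      have := (Finset.mem_Ioc.1 hm).1
      exact_mod_cast this
    push_cast
    field_simp
  have h2 : nlS (fun m => a (p * m)) N = nlS (fun m => a (p * m)) (N / p) +
      ∑ m ∈ Ioc (N / p) N, a (p * m) / m := by
    unfold nlS
    rw [Finset.sum_Ioc_consecutive _ (Nat.zero_le _) (Nat.div_le_self N p)]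
  have h3 : |∑ m ∈ Ioc (N / p) N, a (p * m) / m| ≤ p := by
    refine (Finset.abs_sum_le_sum_abs _ _).trans ?_
    rcases Nat.eq_zero_or_pos N with hN0 | hN0
    · subst hN0; simp
    have hN1 : (0 : ℝ) < N := by exact_mod_cast hN0
    have h4 : ∀ m ∈ Ioc (N / p) N, |a (p * m) / m| ≤ p / N := by
      intro m hm
      rw [Finset.mem_Ioc] at hm
      have hm0 : (0 : ℝ) < m := by
        have : 0 < m := lt_of_le_of_lt (Nat.zero_le _) hm.1
        exact_mod_cast this
      have h5 : N < p * m := by
        have := (Nat.div_lt_iff_lt_mul hp).1 hm.1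
        rwa [mul_comm] at this
      have h6 : (N : ℝ) ≤ p * m := by exact_mod_cast h5.le
      rw [abs_div, abs_of_pos hm0, div_le_div_iff₀ hm0 hN1]
      have := ha (p * m)
      nlinarith [abs_nonneg (a (p * m))]
    refine (Finset.sum_le_sum h4).trans ?_
    rw [Finset.sum_const, nsmul_eq_mul, Nat.card_Ioc]
    have h5 : ((N - N / p : ℕ) : ℝ) ≤ N := by exact_mod_cast Nat.sub_le _ _
    calc ((N - N / p : ℕ) : ℝ) * (p / N) ≤ N * (p / N) :=
          mul_le_mul_of_nonneg_right h5 (by positivity)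
      _ = p := by field_simp
  rw [h1, h2]
  have h4 : 1 / (p : ℝ) * nlS (fun m => a (p * m)) (N / p) - 1 / (p : ℝ) *
      (nlS (fun m => a (p * m)) (N / p) + ∑ m ∈ Ioc (N / p) N, a (p * m) / m) =
      -((∑ m ∈ Ioc (N / p) N, a (p * m) / m) / p) := by ring
  rw [h4, abs_neg, abs_div, abs_of_pos hp0, div_le_one hp0]
  exact h3

/-- CJ-3: the conditions are necessary (logarithmic averages along a sequence). -/
theorem necessary_log (σ : ℕ → ℝ) (hσ : ∀ p, σ p = 1 ∨ σ p = -1) (c : ℕ → ℕ → Finset ℕ → ℝ)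
    (f : ℕ → ℝ) (hf : AlmostMult σ f) (N : ℕ → ℕ) (hN : Tendsto N atTop atTop)
    (h : ∀ (q r : ℕ) (S : Finset ℕ), 1 ≤ q → Tendsto (fun k : ℕ =>
      (∑ n ∈ (Ioc 0 (N k)).filter (fun n => n ≡ r [MOD q]), (∏ s ∈ S, f (n + s)) / n)
        / Real.log (N k)) atTop (𝓝 (c q r S))) : JointSystem σ c := by
  classical
  obtain ⟨hpm, hdil⟩ := hf
  -- the functions
  set F : ℕ → ℕ → Finset ℕ → ℕ → ℝ := fun q r S n => if n ≡ r [MOD q] then ∏ s ∈ S, f (n + s)
    else 0 with hF
  have hLA : ∀ (q r : ℕ) (S : Finset ℕ), 1 ≤ q → NLA N (F q r S) (c q r S) := by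
    intro q r S hq
    refine (h q r S hq).congr fun k => ?_
    congr 1
    unfold nlS
    rw [Finset.sum_filter]
    refine Finset.sum_congr rfl fun n _ => ?_
    rw [hF]
    simp only
    split_ifs <;> simp
  have hF1 : ∀ q r S n, |F q r S n| ≤ 1 := by
    intro q r S n
    rw [hF]
    simp only
    split_ifs
    · exact (nl_abs_prod f hpm S (fun s => n + s)).le
    · simp
  have hperiod : ∀ (q r : ℕ) (S : Finset ℕ), 1 ≤ q → c q (r + q) S = c q r S := by
    intro q r S hq
    refine NLA.unique' hN (hLA q (r + q) S hq) (hLA q r S hq) 0 fun M => ?_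
    have : F q (r + q) S = F q r S := by
      funext n
      rw [hF]
      simp only
      have e : (n ≡ r + q [MOD q]) ↔ (n ≡ r [MOD q]) := by
        unfold Nat.ModEq
        rw [Nat.add_mod_right]
      simp only [e]
    rw [this, sub_self, abs_zero]
  have hrefine : ∀ (q m r : ℕ) (S : Finset ℕ), 1 ≤ q → 1 ≤ m →
      ∑ i ∈ range m, c (q * m) (r + q * i) S = c q r S := by
    intro q m r S hq hm
    have h1 : NLA N (fun n => ∑ i ∈ range m, F (q * m) (r + q * i) S n)
        (∑ i ∈ range m, c (q * m) (r + q * i) S) := by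
      have h2 : Tendsto (fun k : ℕ => ∑ i ∈ range m,
          nlS (F (q * m) (r + q * i) S) (N k) / Real.log (N k)) atTop
          (𝓝 (∑ i ∈ range m, c (q * m) (r + q * i) S)) :=
        tendsto_finsetSum _ fun i _ => hLA (q * m) (r + q * i) S (Nat.mul_pos hq hm)
      refine h2.congr fun k => ?_
      rw [← Finset.sum_div]
      congr 1
      unfold nlS
      rw [Finset.sum_comm]
      refine Finset.sum_congr rfl fun n _ => ?_
      rw [Finset.sum_div]
    refine NLA.unique' hN h1 (hLA q r S hq) 0 fun M => ?_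
    have : (fun n => ∑ i ∈ range m, F (q * m) (r + q * i) S n) = F q r S := by
      funext n
      rw [hF]
      simp only
      by_cases hn : n ≡ r [MOD q]
      · rw [if_pos hn]
        -- exactly one `i`
        obtain ⟨i, hi, hi'⟩ : ∃ i ∈ range m, n ≡ r + q * i [MOD (q * m)] := by
          -- choose a multiple of `q * m` larger than `r`
          obtain ⟨t, ht⟩ : ∃ t, n + q * m * r = r + q * t := by
            have hle : r ≤ n + q * m * r := by
              have : 1 ≤ q * m := Nat.mul_pos hq hm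
              nlinarith
            have h3 : n + q * m * r ≡ r [MOD q] := by
              have h4 : q * m * r ≡ 0 [MOD q] :=
                (Nat.modEq_zero_iff_dvd).2 ⟨m * r, by ring⟩
              simpa using hn.add h4
            have h5 := (Nat.modEq_iff_dvd' hle).1 h3.symm
            obtain ⟨t, ht⟩ := h5
            exact ⟨t, by omega⟩
          refine ⟨t % m, Finset.mem_range.2 (Nat.mod_lt _ hm), ?_⟩
          have h3 : n ≡ n + q * m * r [MOD (q * m)] := by
            have h4 : q * m * r ≡ 0 [MOD (q * m)] := (Nat.modEq_zero_iff_dvd).2 ⟨r, rfl⟩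
            simpa using (Nat.ModEq.refl n).add h4.symm
          refine h3.trans ?_
          rw [ht]
          refine Nat.ModEq.add_left r ?_
          exact (Nat.ModEq.mul_left' q (Nat.mod_modEq t m).symm)
        rw [Finset.sum_eq_single_of_mem i hi]
        · rw [if_pos hi']
        · intro j hj hji
          rw [if_neg]
          intro hj'
          apply hji
          have h3 : r + q * j ≡ r + q * i [MOD (q * m)] := hj'.symm.trans hi'
          have h4 : q * j ≡ q * i [MOD (q * m)] := Nat.ModEq.add_left_cancel' r h3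
          have h5 : j ≡ i [MOD m] := Nat.ModEq.mul_left_cancel' (by omega) h4
          exact Nat.ModEq.eq_of_lt_of_lt h5 (Finset.mem_range.1 hj) (Finset.mem_range.1 hi)
      · rw [if_neg hn]
        refine Finset.sum_eq_zero fun i _ => ?_
        rw [if_neg]
        intro hi
        apply hn
        have h3 : n ≡ r + q * i [MOD q] := hi.of_mul_right m
        refine h3.trans ?_
        have h4 : q * i ≡ 0 [MOD q] := (Nat.modEq_zero_iff_dvd).2 ⟨i, rfl⟩
        simpa using (Nat.ModEq.refl r).add h4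
    rw [this, sub_self, abs_zero]
  have hshift : ∀ (q r : ℕ) (S : Finset ℕ), 1 ≤ q →
      c q r (S.image (fun s => s + 1)) = c q (r + 1) S := by
    intro q r S hq
    refine NLA.unique' hN (hLA q r (S.image (fun s => s + 1)) hq) (hLA q (r + 1) S hq) 4
      fun M => ?_
    have h2 : F q r (S.image (fun s => s + 1)) = fun n => F q (r + 1) S (n + 1) := by
      funext n
      rw [hF]
      simp only
      have e : (n + 1 ≡ r + 1 [MOD q]) ↔ (n ≡ r [MOD q]) :=
        ⟨fun h => Nat.ModEq.add_right_cancel' 1 h, fun h => h.add_right 1⟩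
      simp only [e]
      congr 1
      rw [Finset.prod_image (by intro a _ b _ hab; simpa using hab)]
      refine Finset.prod_congr rfl fun s _ => ?_
      congr 1; ring
    rw [h2]
    exact nlS_shift _ (hF1 q (r + 1) S) M
  refine ⟨?_, hperiod, hrefine, hshift, ?_, ?_⟩
  · -- empty
    intro q r hq
    have h1 : ∀ r, c q r ∅ = c q 0 ∅ := by
      intro r
      induction r with
      | zero => rfl
      | succ r ih =>
        rw [← ih]
        have := hshift q r ∅ hq
        rw [Finset.image_empty] at this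
        exact this.symm
    have h2 := hrefine 1 q 0 ∅ le_rfl hq
    have h3 : ∑ i ∈ range q, c (1 * q) (0 + 1 * i) ∅ = q * c q 0 ∅ := by
      rw [Finset.sum_congr rfl (fun i _ => by rw [one_mul, one_mul, zero_add, h1 i]),
        Finset.sum_const, Finset.card_range, nsmul_eq_mul]
    rw [h3] at h2
    have h4 : NLA N (fun _ => 1) 1 := by
      have hl := nl_log hN
      have h5 : Tendsto (fun k : ℕ => 1 + 1 / Real.log (N k)) atTop (𝓝 (1 + 0)) := by
        refine tendsto_const_nhds.add ?_
        simp only [one_div]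
        exact hl.inv_tendsto_atTop
      rw [add_zero] at h5
      refine tendsto_of_tendsto_of_tendsto_of_le_of_le' tendsto_const_nhds h5 ?_ ?_
      · filter_upwards [hl.eventually_gt_atTop 0] with k hk
        rw [le_div_iff₀ hk, one_mul]
        exact nl_le_harm (N k)
      · filter_upwards [hl.eventually_gt_atTop 0] with k hk
        rw [div_le_iff₀ hk, add_mul, one_mul, one_div, inv_mul_cancel₀ hk.ne']
        have := nl_harm_le (N k)
        unfold nlS
        linarith
    have h5 : c 1 0 ∅ = 1 := by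
      refine NLA.unique' hN (hLA 1 0 ∅ le_rfl) h4 0 fun M => ?_
      have : F 1 0 ∅ = fun _ => 1 := by
        funext n
        rw [hF]
        simp [Nat.modEq_one]
      rw [this, sub_self, abs_zero]
    rw [h5] at h2
    rw [h1 r]
    have hq0 : (q : ℝ) ≠ 0 := by
      have : 0 < q := hq
      exact_mod_cast this.ne'
    field_simp
    linarith
  · -- dilate
    intro p hp q r S hq
    have hp0 : (0 : ℝ) < p := by exact_mod_cast hp.pos
    have h1 : NLA N (fun n => σ p ^ S.card / p * F q r S n) (σ p ^ S.card / p * c q r S) := by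
      have := (hLA q r S hq).const_mul (σ p ^ S.card / p)
      refine this.congr fun k => ?_
      unfold nlS
      rw [← mul_div_assoc, Finset.mul_sum]
      congr 1
      refine Finset.sum_congr rfl fun n _ => ?_
      ring
    have h2 : σ p ^ S.card * c q r S / p = σ p ^ S.card / p * c q r S := by ring
    rw [h2]
    refine NLA.unique hN (hLA (p * q) (p * r) (S.image fun s => p * s) (Nat.mul_pos hp.pos hq)) h1
      fun ε hε => ?_
    -- the intermediate function
    have e1 : ∀ m, F (p * q) (p * r) (S.image fun s => p * s) (p * m) =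
        if m ≡ r [MOD q] then ∏ s ∈ S, f (p * (m + s)) else 0 := by
      intro m
      rw [hF]
      simp only
      have e : (p * m ≡ p * r [MOD (p * q)]) ↔ (m ≡ r [MOD q]) :=
        ⟨fun h => Nat.ModEq.mul_left_cancel' hp.pos.ne' h, fun h => Nat.ModEq.mul_left' p h⟩
      simp only [e]
      congr 1
      rw [Finset.prod_image (by
        intro a _ b _ hab; exact Nat.eq_of_mul_eq_mul_left hp.pos hab)]
      refine Finset.prod_congr rfl fun s _ => ?_
      congr 1; ring
    have e2 : ∀ n, ¬ p ∣ n → F (p * q) (p * r) (S.image fun s => p * s) n = 0 := by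
      intro n hn
      rw [hF]
      simp only
      rw [if_neg]
      intro hm
      apply hn
      have h3 : n ≡ p * r [MOD p] := hm.of_mul_right q
      have h4 : p * r ≡ 0 [MOD p] := (Nat.modEq_zero_iff_dvd).2 ⟨r, rfl⟩
      exact (Nat.modEq_zero_iff_dvd).1 (h3.trans h4)
    set B : Set ℕ := {m | ∃ s ∈ S, m ∈ {m | m + s ∈ {n | f (p * n) ≠ σ p * f n}}} with hB
    have hBD : DZ B := DZ.iUnion S (fun s => {m | m + s ∈ {n | f (p * n) ≠ σ p * f n}})
      fun s _ => (DZ_of_densityZero (hdil p hp)).preimage_add s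
    have hB1 : ∀ ε : ℝ, 0 < ε → ∀ᶠ N : ℕ in atTop,
        ∑ n ∈ Ioc 0 N, (if n ∈ B then (1 : ℝ) else 0) ≤ ε * N := by
      intro ε hε
      have h3 : DZ {n | (if n ∈ B then (1 : ℝ) else 0) ≠ 0} := by
        refine hBD.mono ?_
        intro n hn
        by_contra hcon
        simp only [Set.mem_ofPred_eq] at hn
        rw [if_neg hcon] at hn
        exact hn rfl
      have h4 := DZ.avg_close (g₁ := fun n => if n ∈ B then (1 : ℝ) else 0) (g₂ := fun _ => 0)
        (by intro n; show |if n ∈ B then (1 : ℝ) else 0| ≤ 1; split_ifs <;> simp) (by simp) h3 ε hε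
      filter_upwards [h4] with N hN
      rw [Finset.sum_const_zero, sub_zero] at hN
      exact (le_abs_self _).trans hN
    have hB2 := nl_small (fun n => if n ∈ B then (1 : ℝ) else 0) hB1 (ε / 4) (by positivity)
    have hlog : Tendsto (fun N : ℕ => Real.log N) atTop atTop :=
      Real.tendsto_log_atTop.comp tendsto_natCast_atTop_atTop
    filter_upwards [hB2, hlog.eventually_ge_atTop (1 / (ε / 2))] with M hM1 hM2
    rw [div_le_iff₀ (by positivity)] at hM2
    have h3 := nlS_dilate (F (p * q) (p * r) (S.image fun s => p * s))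
      (hF1 _ _ _) p hp.pos e2 M
    have h4 : |1 / (p : ℝ) * nlS (fun m => F (p * q) (p * r) (S.image fun s => p * s) (p * m)) M -
        nlS (fun n => σ p ^ S.card / p * F q r S n) M| ≤
        2 * nlS (fun n => if n ∈ B then (1 : ℝ) else 0) M := by
      unfold nlS
      rw [Finset.mul_sum, Finset.mul_sum, ← Finset.sum_sub_distrib]
      refine (Finset.abs_sum_le_sum_abs _ _).trans (Finset.sum_le_sum fun n hn => ?_)
      have hn0 : (0 : ℝ) < n := by
        have := (Finset.mem_Ioc.1 hn).1
        exact_mod_cast this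
      show |1 / (p : ℝ) * (F (p * q) (p * r) (S.image fun s => p * s) (p * n) / n) -
        σ p ^ S.card / p * F q r S n / n| ≤ 2 * ((if n ∈ B then (1 : ℝ) else 0) / n)
      rw [e1]
      have e3 : 1 / (p : ℝ) * ((if n ≡ r [MOD q] then ∏ s ∈ S, f (p * (n + s)) else 0) / n) -
          σ p ^ S.card / p * F q r S n / n =
          ((if n ≡ r [MOD q] then ∏ s ∈ S, f (p * (n + s)) else 0) -
            σ p ^ S.card * F q r S n) / (p * n) := by
        field_simp
      rw [e3, abs_div, abs_of_pos (by positivity : (0 : ℝ) < p * n)]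
      have hp1 : (1 : ℝ) ≤ p := by exact_mod_cast hp.pos
      by_cases hnB : n ∈ B
      · rw [if_pos hnB]
        have h5 : |(if n ≡ r [MOD q] then ∏ s ∈ S, f (p * (n + s)) else 0) -
            σ p ^ S.card * F q r S n| ≤ 2 := by
          refine (abs_sub _ _).trans ?_
          have h6 : |if n ≡ r [MOD q] then ∏ s ∈ S, f (p * (n + s)) else 0| ≤ 1 := by
            split_ifs
            · exact (nl_abs_prod f hpm S (fun s => p * (n + s))).le
            · simp
          have h7 : |σ p ^ S.card * F q r S n| ≤ 1 := by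
            rw [abs_mul, abs_pow]
            have h8 : |σ p| = 1 := by rcases hσ p with h | h <;> rw [h] <;> simp
            rw [h8, one_pow, one_mul]
            exact hF1 q r S n
          linarith
        rw [div_le_iff₀ (by positivity)]
        have h6 : 2 * (1 / (n : ℝ)) * (p * n) = 2 * p := by field_simp
        rw [h6]
        linarith
      · rw [if_neg hnB]
        have h5 : (if n ≡ r [MOD q] then ∏ s ∈ S, f (p * (n + s)) else 0) -
            σ p ^ S.card * F q r S n = 0 := by
          rw [hF]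
          simp only
          split_ifs
          · have h6 : ∀ s ∈ S, f (p * (n + s)) = σ p * f (n + s) := by
              intro s hs
              by_contra hcon
              exact hnB ⟨s, hs, hcon⟩
            rw [Finset.prod_congr rfl h6, Finset.prod_mul_distrib, Finset.prod_const, sub_self]
          · simp
        rw [h5]
        simp
    have h5 := abs_sub_le (nlS (F (p * q) (p * r) (S.image fun s => p * s)) M)
      (1 / (p : ℝ) * nlS (fun m => F (p * q) (p * r) (S.image fun s => p * s) (p * m)) M)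
      (nlS (fun n => σ p ^ S.card / p * F q r S n) M)
    linarith
  · -- positivity
    intro q r hq T v hv
    have h2 : Tendsto (fun k : ℕ => ∑ S ∈ T.powerset,
        (nlS (F q r S) (N k) / Real.log (N k)) * ∏ s ∈ S, v s) atTop
        (𝓝 (∑ S ∈ T.powerset, c q r S * ∏ s ∈ S, v s)) :=
      tendsto_finsetSum _ fun S _ => (hLA q r S hq).mul_const _
    refine ge_of_tendsto' h2 fun k => ?_
    have h3 : ∑ S ∈ T.powerset, (nlS (F q r S) (N k) / Real.log (N k)) * ∏ s ∈ S, v s
        = (∑ n ∈ Ioc 0 (N k), (if n ≡ r [MOD q] then ∏ s ∈ T, (1 + v s * f (n + s)) else 0) / n)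
          / Real.log (N k) := by
      rw [Finset.sum_div]
      have h4 : ∀ n, ∏ s ∈ T, (1 + v s * f (n + s))
          = ∑ S ∈ T.powerset, (∏ s ∈ S, v s) * ∏ s ∈ S, f (n + s) := by
        intro n
        rw [Finset.prod_one_add]
        refine Finset.sum_congr rfl fun S _ => ?_
        rw [Finset.prod_mul_distrib]
      have h5 : ∀ n, (if n ≡ r [MOD q] then ∏ s ∈ T, (1 + v s * f (n + s)) else 0)
          = ∑ S ∈ T.powerset, (∏ s ∈ S, v s) * F q r S n := by
        intro n
        rw [hF]
        simp only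
        split_ifs
        · exact h4 n
        · simp
      simp_rw [h5, Finset.sum_div]
      rw [Finset.sum_comm]
      refine Finset.sum_congr rfl fun S _ => ?_
      unfold nlS
      rw [Finset.sum_div, Finset.sum_mul]
      refine Finset.sum_congr rfl fun n _ => ?_
      ring
    rw [h3]
    apply div_nonneg _ (Real.log_natCast_nonneg _)
    refine Finset.sum_nonneg fun n _ => div_nonneg ?_ (Nat.cast_nonneg n)
    split_ifs
    · refine Finset.prod_nonneg fun s _ => ?_
      rcases hv s with h5 | h5 <;> rcases hpm (n + s) with h6 | h6 <;> rw [h5, h6] <;> norm_num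
    · exact le_rfl

end Pool.Agent.Helper8.Classify
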